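import Mathlib
import Pool.Agent.Helper8.Lie.P22

/-!
Invariant functions for an irreducible module of dimension three and its dual: the invariant
theory of the standard representation of `sl₃`, in coordinates.
-/

open Module LieAlgebra LieModule

set_option linter.unusedVariables false
set_option linter.unusedSectionVars false

namespace Pool.Agent.Helper7

open Pool.Agent.Helper8

/-- A perfect pairing of two modules, invariant under the Lie algebra `L`. -/
structure PairInv (L : Type*) [LieRing L] [LieAlgebra ℂ L]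
    {V V1 : Type*} [AddCommGroup V] [Module ℂ V] [LieRingModule L V]
    [AddCommGroup V1] [Module ℂ V1] [LieRingModule L V1]
    (b : V →ₗ[ℂ] V1 →ₗ[ℂ] ℂ) : Prop where
  ndl : ∀ x, (∀ y, b x y = 0) → x = 0
  ndr : ∀ y, (∀ x, b x y = 0) → y = 0
  inv : ∀ (a : L) x y, b ⁅a, x⁆ y + b x ⁅a, y⁆ = 0

section multilinear

variable {V1 V2 V3 V4 V5 V6 : Type*} [AddCommGroup V1] [Module ℂ V1] [AddCommGroup V2]
    [Module ℂ V2] [AddCommGroup V3] [Module ℂ V3] [AddCommGroup V4] [Module ℂ V4]
    [AddCommGroup V5] [Module ℂ V5] [AddCommGroup V6] [Module ℂ V6]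

/-- functions linear in each of three variables -/
structure ML3 (G : V1 → V2 → V3 → ℂ) : Prop where
  l1 : ∀ y z, IsLinearMap ℂ (fun x => G x y z)
  l2 : ∀ x z, IsLinearMap ℂ (fun y => G x y z)
  l3 : ∀ x y, IsLinearMap ℂ (fun z => G x y z)

/-- functions linear in each of six variables -/
structure ML6 (G : V1 → V2 → V3 → V4 → V5 → V6 → ℂ) : Prop where
  l1 : ∀ y z x' y' z', IsLinearMap ℂ (fun x => G x y z x' y' z')
  l2 : ∀ x z x' y' z', IsLinearMap ℂ (fun y => G x y z x' y' z')
  l3 : ∀ x y x' y' z', IsLinearMap ℂ (fun z => G x y z x' y' z')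
  l4 : ∀ x y z y' z', IsLinearMap ℂ (fun x' => G x y z x' y' z')
  l5 : ∀ x y z x' z', IsLinearMap ℂ (fun y' => G x y z x' y' z')
  l6 : ∀ x y z x' y', IsLinearMap ℂ (fun z' => G x y z x' y' z')

end multilinear

/-- skew functions of three vectors -/
structure Skew3 {V : Type*} (G : V → V → V → ℂ) : Prop where
  s1 : ∀ x y z, G y x z = - G x y z
  s2 : ∀ x y z, G x z y = - G x y z

/-- the determinant of a pairing of two triples -/
def det3 {V W : Type*} (β : V → W → ℂ) (x y z : V) (x' y' z' : W) : ℂ :=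
  β x x' * (β y y' * β z z' - β y z' * β z y') - β x y' * (β y x' * β z z' - β y z' * β z x') +
    β x z' * (β y x' * β z y' - β y y' * β z x')

section lin

variable {V W : Type*} [AddCommGroup V] [Module ℂ V] [AddCommGroup W] [Module ℂ W]

lemma det3_ml {β : V → W → ℂ} (h : ML2 β) : ML6 (det3 β) := by
  refine ⟨?_, ?_, ?_, ?_, ?_, ?_⟩ <;> intro p q r s t <;> constructor <;> intro u v <;>
    simp only [det3, (h.l1 _).map_add, (h.l1 _).map_smul, (h.l2 _).map_add, (h.l2 _).map_smul,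
      smul_eq_mul] <;> ring

lemma det3_skew1 (β : V → W → ℂ) (x' y' z' : W) :
    Skew3 (fun x y z => det3 β x y z x' y' z') :=
  ⟨fun x y z => by simp only [det3]; ring, fun x y z => by simp only [det3]; ring⟩

lemma det3_skew2 (β : V → W → ℂ) (x y z : V) :
    Skew3 (fun x' y' z' => det3 β x y z x' y' z') :=
  ⟨fun x y z => by simp only [det3]; ring, fun x y z => by simp only [det3]; ring⟩

/-- a skew function of three vectors in a three dimensional space which vanishes on a basis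
vanishes -/
lemma skew3_zero {G : V → V → V → ℂ} (hG : ML3 G) (hs : Skew3 G) (e : Basis (Fin 3) ℂ V)
    (h : G (e 0) (e 1) (e 2) = 0) (x y z : V) : G x y z = 0 := by
  have h1 : ∀ x z, G x x z = 0 := fun x z => by
    have := hs.s1 x x z
    have h2 : (2 : ℂ) * G x x z = 0 := by linear_combination this
    simpa using h2
  have h2 : ∀ x z, G x z z = 0 := fun x z => by
    have := hs.s2 x z z
    have h2 : (2 : ℂ) * G x z z = 0 := by linear_combination this
    simpa using h2
  have h3 : ∀ x z, G x z x = 0 := fun x z => by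
    rw [hs.s2, h1, neg_zero]
  have hb : ∀ i j k, G (e i) (e j) (e k) = 0 := by
    have e1 : G (e 1) (e 0) (e 2) = 0 := by rw [hs.s1, h, neg_zero]
    have e2 : G (e 0) (e 2) (e 1) = 0 := by rw [hs.s2, h, neg_zero]
    have e3 : G (e 1) (e 2) (e 0) = 0 := by rw [hs.s2, e1, neg_zero]
    have e4 : G (e 2) (e 0) (e 1) = 0 := by rw [hs.s1, e2, neg_zero]
    have e5 : G (e 2) (e 1) (e 0) = 0 := by rw [hs.s2, e4, neg_zero]
    intro i j k
    fin_cases i <;> fin_cases j <;> fin_cases k <;>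
      first | exact h1 _ _ | exact h2 _ _ | exact h3 _ _ | exact h | exact e1 | exact e2 |
        exact e3 | exact e4 | exact e5
  exact lin_ext e (hG.l1 y z) (fun i => lin_ext e (hG.l2 _ z) (fun j =>
    lin_ext e (hG.l3 _ _) (fun k => hb i j k) z) y) x

lemma skew3_prop {G H : V → V → V → ℂ} (hG : ML3 G) (hs : Skew3 G) (hH : ML3 H) (hs' : Skew3 H)
    (e : Basis (Fin 3) ℂ V) (hH1 : H (e 0) (e 1) (e 2) = 1) (x y z : V) :
    G x y z = H x y z * G (e 0) (e 1) (e 2) := by
  have key := skew3_zero (G := fun x y z => G x y z - H x y z * G (e 0) (e 1) (e 2))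
    ⟨fun y z => isLin_sub (hG.l1 y z) (isLin_mul_const _ (hH.l1 y z)),
      fun x z => isLin_sub (hG.l2 x z) (isLin_mul_const _ (hH.l2 x z)),
      fun x y => isLin_sub (hG.l3 x y) (isLin_mul_const _ (hH.l3 x y))⟩
    ⟨fun x y z => by simp only [hs.s1 x y z, hs'.s1 x y z]; ring,
      fun x y z => by simp only [hs.s2 x y z, hs'.s2 x y z]; ring⟩ e (by simp only [hH1]; ring)
    x y z
  linear_combination key

end lin

section pairing

variable {L : Type*} [LieRing L] [LieAlgebra ℂ L]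
  {V V1 : Type*} [AddCommGroup V] [Module ℂ V] [LieRingModule L V] [LieModule ℂ L V]
  [FiniteDimensional ℂ V]
  [AddCommGroup V1] [Module ℂ V1] [LieRingModule L V1] [LieModule ℂ L V1]
  [FiniteDimensional ℂ V1]
  {b : V →ₗ[ℂ] V1 →ₗ[ℂ] ℂ} (hb : PairInv L b)

include hb

lemma PairInv.inv2 : Inv2 L (fun x y => b x y) := hb.inv

lemma PairInv.flip : PairInv L b.flip :=
  ⟨fun x h => hb.ndr x h, fun y h => hb.ndl y h, fun a x y => by
    rw [LinearMap.flip_apply, LinearMap.flip_apply, add_comm]; exact hb.inv a y x⟩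

lemma PairInv.injective : Function.Injective b := by
  rw [← LinearMap.ker_eq_bot, Submodule.eq_bot_iff]
  intro x hx
  exact hb.ndl x fun y => by rw [LinearMap.mem_ker.mp hx]; rfl

lemma PairInv.finrank_eq : finrank ℂ V = finrank ℂ V1 := by
  apply le_antisymm
  · have := LinearMap.finrank_le_finrank_of_injective hb.injective
    rwa [Subspace.dual_finrank_eq] at this
  · have := LinearMap.finrank_le_finrank_of_injective hb.flip.injective
    rwa [Subspace.dual_finrank_eq] at this

/-- the identification with the dual space -/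
lemma PairInv.exists_equiv : ∃ Φ : V ≃ₗ[ℂ] Module.Dual ℂ V1, ∀ x, Φ x = b x :=
  ⟨LinearEquiv.ofInjectiveOfFinrankEq b hb.injective (by
    rw [Subspace.dual_finrank_eq]; exact hb.finrank_eq), fun x => rfl⟩

/-- every functional is represented -/
lemma PairInv.exists_rep {ℓ : V1 → ℂ} (hℓ : IsLinearMap ℂ ℓ) : ∃ w : V, ∀ y, ℓ y = b w y := by
  obtain ⟨Φ, hΦ⟩ := hb.exists_equiv
  refine ⟨Φ.symm (IsLinearMap.mk' ℓ hℓ), fun y => ?_⟩
  have h1 := Φ.apply_symm_apply (IsLinearMap.mk' ℓ hℓ)
  rw [hΦ] at h1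
  rw [h1]; rfl

/-- dual bases -/
lemma PairInv.exists_dual {d : ℕ} (e : Basis (Fin d) ℂ V) :
    ∃ f : Basis (Fin d) ℂ V1, ∀ i j, b (e i) (f j) = if i = j then 1 else 0 := by
  obtain ⟨Φ, hΦ⟩ := hb.flip.exists_equiv
  refine ⟨e.dualBasis.map Φ.symm, fun i j => ?_⟩
  have h1 := Φ.apply_symm_apply (e.dualBasis j)
  rw [hΦ] at h1
  have h2 := congrArg (fun φ : Module.Dual ℂ V => φ (e i)) h1
  simp only [LinearMap.flip_apply, Basis.dualBasis_apply_self] at h2
  rw [Basis.map_apply, h2]

/-- Schur's lemma for a perfect pairing -/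
theorem PairInv.schur [LieModule.IsIrreducible ℂ L V] {g : V → V1 → ℂ} (hg : ML2 g)
    (hI : Inv2 L g) : ∃ c : ℂ, ∀ x y, g x y = c * b x y := by
  have : Nontrivial V := LieModule.nontrivial_of_isIrreducible ℂ L V
  obtain ⟨β, hβ⟩ := exists_linear hg
  obtain ⟨Φ, hΦ⟩ := hb.exists_equiv
  let T : V →ₗ[ℂ] V := Φ.symm.toLinearMap ∘ₗ β
  have hT : ∀ x y, b (T x) y = g x y := by
    intro x y
    have h1 : Φ (T x) = β x := Φ.apply_symm_apply (β x)
    rw [hΦ] at h1
    rw [h1, hβ]
  have hTL : ∀ (a : L) x, T ⁅a, x⁆ = ⁅a, T x⁆ := by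
    intro a x
    rw [← sub_eq_zero]
    apply hb.ndl
    intro y
    rw [map_sub, LinearMap.sub_apply]
    have h0 := hb.inv a (T x) y
    have h1 := hI a x y
    rw [hT] at h0 ⊢
    linear_combination h1 - h0
  obtain ⟨c, hc⟩ := Module.End.exists_eigenvalue T
  have h1 : Module.End.eigenspace T c = ⊤ := by
    rcases irr_cases (L := L) (Module.End.eigenspace T c) (fun a v hv => by
      rw [Module.End.mem_eigenspace_iff] at hv ⊢
      rw [hTL, hv, lie_smul]) with h | h
    · exact absurd h hc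
    · exact h
  refine ⟨c, fun x y => ?_⟩
  have h2 : x ∈ Module.End.eigenspace T c := by rw [h1]; trivial
  rw [Module.End.mem_eigenspace_iff] at h2
  rw [← hT, h2, map_smul, LinearMap.smul_apply, smul_eq_mul]

/-- the dual module is irreducible -/
theorem PairInv.irr [LieModule.IsIrreducible ℂ L V] : LieModule.IsIrreducible ℂ L V1 := by
  have hV : Nontrivial V := LieModule.nontrivial_of_isIrreducible ℂ L V
  have hV1 : Nontrivial V1 := by
    have h1 : 0 < finrank ℂ V := Module.finrank_pos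
    rw [hb.finrank_eq] at h1
    exact Module.nontrivial_of_finrank_pos h1
  refine LieModule.IsIrreducible.mk fun N hN => ?_
  -- annihilator of `N`
  let A : Submodule ℂ V :=
    { carrier := {x | ∀ y ∈ N, b x y = 0}
      add_mem' := fun {x x'} hx hx' y hy => by
        rw [map_add, LinearMap.add_apply, hx y hy, hx' y hy, add_zero]
      zero_mem' := fun y _ => by simp
      smul_mem' := fun c x hx y hy => by
        rw [map_smul, LinearMap.smul_apply, hx y hy, smul_zero] }
  rcases irr_cases (L := L) A (fun a x hx y hy => by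
    have h1 := hb.inv a x y
    rw [hx _ (N.lie_mem hy), add_zero] at h1
    exact h1) with h | h
  · -- annihilator zero: `N` is everything
    by_contra hne
    obtain ⟨φ, hφ, hφN⟩ : ∃ φ : Module.Dual ℂ V1, φ ≠ 0 ∧ ∀ y ∈ N, φ y = 0 := by
      have hlt : N.toSubmodule < ⊤ := by
        rw [lt_top_iff_ne_top]
        intro h2
        apply hne
        rwa [LieSubmodule.toSubmodule_eq_top] at h2
      obtain ⟨φ, hφ, h3⟩ := Submodule.exists_le_ker_of_lt_top _ hlt
      exact ⟨φ, hφ, fun y hy => h3 hy⟩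
    obtain ⟨w, hw⟩ := hb.exists_rep φ.isLinear
    have hwA : w ∈ A := fun y hy => by rw [← hw]; exact hφN y hy
    rw [h, Submodule.mem_bot] at hwA
    apply hφ
    ext y
    rw [hw, hwA]; simp
  · exfalso
    apply hN
    rw [eq_bot_iff]
    intro y hy
    have : y = 0 := hb.ndr y fun x => by
      have hx : x ∈ A := by rw [h]; trivial
      exact hx y hy
    rw [this]; exact LieSubmodule.zero_mem _

/-- no invariant vectors -/
lemma no_inv_vector [LieModule.IsIrreducible ℂ L V] (hd : 1 < finrank ℂ V) (w : V)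
    (hw : ∀ a : L, ⁅a, w⁆ = 0) : w = 0 := by
  rcases irr_cases (L := L) (Submodule.span ℂ {w}) (fun a v hv => by
    obtain ⟨c, rfl⟩ := Submodule.mem_span_singleton.mp hv
    rw [lie_smul, hw, smul_zero]; exact Submodule.zero_mem _) with h | h
  · rwa [Submodule.span_singleton_eq_bot] at h
  · exfalso
    have h1 := finrank_span_le_card (R := ℂ) ({w} : Set V)
    rw [h, finrank_top, Set.toFinset_singleton, Finset.card_singleton] at h1
    omega

/-- a functional killed by the Lie algebra vanishes -/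
lemma PairInv.no_inv_functional [LieModule.IsIrreducible ℂ L V] (hd : 1 < finrank ℂ V)
    {ℓ : V1 → ℂ} (hℓ : IsLinearMap ℂ ℓ) (h : ∀ (a : L) y, ℓ ⁅a, y⁆ = 0) (y : V1) : ℓ y = 0 := by
  obtain ⟨w, hw⟩ := hb.exists_rep hℓ
  have h1 : w = 0 := no_inv_vector hb hd w fun a => hb.ndl _ fun y => by
    have h2 := hb.inv a w y
    rw [← hw, h, add_zero] at h2
    exact h2
  rw [hw, h1]; simp

/-- trace of an element of `L` in terms of dual bases -/
lemma PairInv.trace_eq {d : ℕ} (e : Basis (Fin d) ℂ V) (f : Basis (Fin d) ℂ V1)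
    (hf : ∀ i j, b (e i) (f j) = if i = j then 1 else 0) (a : L) :
    LinearMap.trace ℂ V (toEnd ℂ L V a) = ∑ i, b ⁅a, e i⁆ (f i) := by
  rw [LinearMap.trace_eq_matrix_trace ℂ e, Matrix.trace]
  refine Finset.sum_congr rfl fun i _ => ?_
  rw [Matrix.diag_apply, LinearMap.toMatrix_apply, toEnd_apply_apply]
  have D := dual_of_basis e f hf
  conv_rhs => rw [← e.sum_repr ⁅a, e i⁆]
  rw [map_sum, LinearMap.sum_apply, Finset.sum_eq_single i]
  · rw [map_smul, LinearMap.smul_apply, hf, if_pos rfl, smul_eq_mul, mul_one]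
  · intro j _ hj
    rw [map_smul, LinearMap.smul_apply, hf, if_neg hj, smul_zero]
  · intro h; exact absurd (Finset.mem_univ _) h

/-- trace on the dual module -/
lemma PairInv.trace_dual (a : L) :
    LinearMap.trace ℂ V1 (toEnd ℂ L V1 a) = - LinearMap.trace ℂ V (toEnd ℂ L V a) := by
  let e := Module.finBasis ℂ V
  obtain ⟨f, hf⟩ := hb.exists_dual e
  have h1 := hb.trace_eq e f hf a
  have h2 := hb.flip.trace_eq f e (fun i j => by
    rw [LinearMap.flip_apply, hf]
    by_cases h : i = j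
    · rw [if_pos h, if_pos h.symm]
    · rw [if_neg h, if_neg (Ne.symm h)]) a
  rw [h1, h2, ← Finset.sum_neg_distrib]
  refine Finset.sum_congr rfl fun i _ => ?_
  rw [LinearMap.flip_apply]
  linear_combination hb.inv a (e i) (f i)

end pairing

section three

variable {L : Type*} [LieRing L] [LieAlgebra ℂ L]
  {V V1 : Type*} [AddCommGroup V] [Module ℂ V] [LieRingModule L V] [LieModule ℂ L V]
  [FiniteDimensional ℂ V]
  [AddCommGroup V1] [Module ℂ V1] [LieRingModule L V1] [LieModule ℂ L V1]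
  [FiniteDimensional ℂ V1]
  {b : V →ₗ[ℂ] V1 →ₗ[ℂ] ℂ} (hb : PairInv L b)

/-- an auxiliary statement on arrays -/
lemma array_zero {g : Fin 3 → Fin 3 → Fin 3 → Fin 3 → ℂ}
    (h1 : ∀ i j k l, g j i k l = - g i j k l) (h2 : ∀ i j k l, g i j l k = - g i j k l)
    (h3 : ∀ i k, g i 0 k 0 + g i 1 k 1 + g i 2 k 2 = 0) (i j k l : Fin 3) : g i j k l = 0 := by
  have d1 : ∀ i k l, g i i k l = 0 := fun i k l => by
    have := h1 i i k l
    have h2 : (2 : ℂ) * g i i k l = 0 := by linear_combination this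
    simpa using h2
  have d2 : ∀ i j k, g i j k k = 0 := fun i j k => by
    have := h2 i j k k
    have h2 : (2 : ℂ) * g i j k k = 0 := by linear_combination this
    simpa using h2
  -- off-diagonal
  have a01 : g 0 2 1 2 = 0 := by linear_combination h3 0 1 - d1 0 1 0 - d2 0 1 1
  have a10 : g 1 2 0 2 = 0 := by linear_combination h3 1 0 - d1 1 0 1 - d2 1 0 0
  have a02 : g 0 1 2 1 = 0 := by linear_combination h3 0 2 - d1 0 2 0 - d2 0 2 2
  have a20 : g 2 1 0 1 = 0 := by linear_combination h3 2 0 - d1 2 0 2 - d2 2 0 0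
  have a12 : g 1 0 2 0 = 0 := by linear_combination h3 1 2 - d1 1 2 1 - d2 1 2 2
  have a21 : g 2 0 1 0 = 0 := by linear_combination h3 2 1 - d1 2 1 2 - d2 2 1 1
  -- diagonal
  have s0 : g 0 1 0 1 + g 0 2 0 2 = 0 := by linear_combination h3 0 0 - d1 0 0 0
  have s1 : g 1 0 1 0 + g 1 2 1 2 = 0 := by linear_combination h3 1 1 - d1 1 1 1
  have s2 : g 2 0 2 0 + g 2 1 2 1 = 0 := by linear_combination h3 2 2 - d1 2 2 2
  have t1 : g 1 0 1 0 = g 0 1 0 1 := by rw [h1, h2, neg_neg]
  have t2 : g 2 0 2 0 = g 0 2 0 2 := by rw [h1, h2, neg_neg]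
  have t3 : g 2 1 2 1 = g 1 2 1 2 := by rw [h1, h2, neg_neg]
  rw [t1] at s1
  rw [t2, t3] at s2
  have q01 : g 0 1 0 1 = 0 := by
    have : (2 : ℂ) * g 0 1 0 1 = 0 := by linear_combination s0 + s1 - s2
    simpa using this
  have q02 : g 0 2 0 2 = 0 := by rw [q01, zero_add] at s0; exact s0
  have q12 : g 1 2 1 2 = 0 := by rw [q01, zero_add] at s1; exact s1
  -- all entries
  have u1 : ∀ {i j k l}, g i j k l = 0 → g j i k l = 0 := fun {i j k l} h => by
    rw [h1, h, neg_zero]
  have u2 : ∀ {i j k l}, g i j k l = 0 → g i j l k = 0 := fun {i j k l} h => by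
    rw [h2, h, neg_zero]
  fin_cases i <;> fin_cases j <;> fin_cases k <;> fin_cases l <;>
    first
      | exact d1 _ _ _ | exact d2 _ _ _
      | exact a01 | exact u1 a01 | exact u2 a01 | exact u1 (u2 a01)
      | exact a10 | exact u1 a10 | exact u2 a10 | exact u1 (u2 a10)
      | exact a02 | exact u1 a02 | exact u2 a02 | exact u1 (u2 a02)
      | exact a20 | exact u1 a20 | exact u2 a20 | exact u1 (u2 a20)
      | exact a12 | exact u1 a12 | exact u2 a12 | exact u1 (u2 a12)
      | exact a21 | exact u1 a21 | exact u2 a21 | exact u1 (u2 a21)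
      | exact q01 | exact u1 q01 | exact u2 q01 | exact u1 (u2 q01)
      | exact q02 | exact u1 q02 | exact u2 q02 | exact u1 (u2 q02)
      | exact q12 | exact u1 q12 | exact u2 q12 | exact u1 (u2 q12)

include hb

/-- **type (2,2)** : the exterior square of the pairing -/
theorem PairInv.inv22 [LieModule.IsIrreducible ℂ L V] (hd : finrank ℂ V = 3)
    {G : V → V → V1 → V1 → ℂ} (hG : ML4 G) (hI : Inv4 L G)
    (h1 : ∀ x y z w, G y x z w = - G x y z w) (h2 : ∀ x y z w, G x y w z = - G x y z w) :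
    ∃ c : ℂ, ∀ x y z w, G x y z w = c * wsq (fun x z => b x z) x y z w := by
  let e : Basis (Fin 3) ℂ V := (Module.finBasisOfFinrankEq ℂ V hd)
  obtain ⟨f, hf⟩ := hb.exists_dual e
  have D := dual_of_basis e f hf
  -- the contraction
  have hml : ML2 (fun x z => ∑ i, G x (e i) z (f i)) :=
    ⟨fun z => isLin_sum _ fun i => hG.l1 _ _ _, fun x => isLin_sum _ fun i => hG.l3 _ _ _⟩
  have hinv : Inv2 L (fun x z => ∑ i, G x (e i) z (f i)) := by
    intro a x z
    have hD := D.inv (g := fun y w => G x y z w) ⟨fun w => hG.l2 _ _ _, fun y => hG.l4 _ _ _⟩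
      (fun v => ⁅a, v⁆) (fun v => ⁅a, v⁆) (fun x y => by linear_combination hb.inv a x y)
    have h3 : ∑ i, (G ⁅a, x⁆ (e i) z (f i) + G x ⁅a, e i⁆ z (f i) + G x (e i) ⁅a, z⁆ (f i) +
        G x (e i) z ⁅a, f i⁆) = 0 := Finset.sum_eq_zero fun i _ => hI a x (e i) z (f i)
    simp only [Finset.sum_add_distrib] at h3 hD ⊢
    linear_combination h3 - hD
  obtain ⟨c0, hc0⟩ := hb.schur hml hinv
  refine ⟨c0 / 2, fun x y z w => ?_⟩
  have hwml : ML4 (wsq (fun x z => b x z)) := wsq_ml (ML2.of b)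
  have key := ML4.ext (G := fun x y z w => G x y z w - c0 / 2 * wsq (fun x z => b x z) x y z w)
    (hG.sub (hwml.const_mul _)) e e f f (fun i j k l => by
      refine array_zero (g := fun i j k l => G (e i) (e j) (f k) (f l) -
        c0 / 2 * wsq (fun x z => b x z) (e i) (e j) (f k) (f l)) ?_ ?_ ?_ i j k l
      · intro i j k l
        simp only [wsq, h1 (e i) (e j)]; ring
      · intro i j k l
        simp only [wsq, h2 (e i) (e j) (f k) (f l)]; ring
      · intro i k
        have h3 := hc0 (e i) (f k)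
        simp only [Fin.sum_univ_three] at h3
        have h4 : ∑ j, b (e j) (f j) = 3 := by rw [D.trace]; norm_num
        have h5 : ∑ j, b (e j) (f k) * b (e i) (f j) = b (e i) (f k) :=
          D.sum2 (φ := fun w => b (e i) w) (b (e i)).isLinear (f k)
        simp only [Fin.sum_univ_three] at h4 h5
        simp only [wsq]
        linear_combination h3 - c0 / 2 * b (e i) (f k) * h4 + c0 / 2 * h5) x y z w
  linear_combination key

/-- **type (3,3)** : the determinant of the pairing (no invariance needed) -/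
theorem PairInv.inv33 (hd : finrank ℂ V = 3)
    {G : V → V → V → V1 → V1 → V1 → ℂ} (hG : ML6 G)
    (h1 : ∀ x' y' z', Skew3 (fun x y z => G x y z x' y' z'))
    (h2 : ∀ x y z, Skew3 (fun x' y' z' => G x y z x' y' z')) :
    ∃ c : ℂ, ∀ x y z x' y' z', G x y z x' y' z' = c * det3 (fun x z => b x z) x y z x' y' z' := by
  let e : Basis (Fin 3) ℂ V := (Module.finBasisOfFinrankEq ℂ V hd)
  obtain ⟨f, hf⟩ := hb.exists_dual e
  have D := det3_ml (ML2.of b)
  have hval : det3 (fun x z => b x z) (e 0) (e 1) (e 2) (f 0) (f 1) (f 2) = 1 := by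
    simp [det3, hf]
  have A1 : ∀ {G : V → V → V → V1 → V1 → V1 → ℂ}, ML6 G → ∀ x' y' z',
      ML3 (fun x y z => G x y z x' y' z') := fun hG x' y' z' =>
    ⟨fun y z => hG.l1 _ _ _ _ _, fun x z => hG.l2 _ _ _ _ _, fun x y => hG.l3 _ _ _ _ _⟩
  have A2 : ∀ {G : V → V → V → V1 → V1 → V1 → ℂ}, ML6 G → ∀ x y z,
      ML3 (fun x' y' z' => G x y z x' y' z') := fun hG x y z =>
    ⟨fun y' z' => hG.l4 _ _ _ _ _, fun x' z' => hG.l5 _ _ _ _ _, fun x' y' => hG.l6 _ _ _ _ _⟩
  refine ⟨G (e 0) (e 1) (e 2) (f 0) (f 1) (f 2), fun x y z x' y' z' => ?_⟩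
  have k1 := skew3_prop (A1 hG x' y' z') (h1 x' y' z') (A1 D (f 0) (f 1) (f 2))
    (det3_skew1 _ _ _ _) e hval x y z
  have k2 := skew3_prop (A2 hG (e 0) (e 1) (e 2)) (h2 _ _ _) (A2 D (e 0) (e 1) (e 2))
    (det3_skew2 _ _ _ _) f hval x' y' z'
  have k3 := skew3_prop (A1 D x' y' z') (det3_skew1 _ x' y' z') (A1 D (f 0) (f 1) (f 2))
    (det3_skew1 _ _ _ _) e hval x y z
  have k4 := skew3_prop (A2 D (e 0) (e 1) (e 2)) (det3_skew2 _ _ _ _) (A2 D (e 0) (e 1) (e 2))
    (det3_skew2 _ _ _ _) f hval x' y' z'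
  beta_reduce at k1 k2 k3 k4
  rw [k1, k2, k3]; ring

omit hb in
/-- **type (2,0)** : no invariant skew forms -/
theorem inv20 [LieModule.IsIrreducible ℂ L V] (hd : finrank ℂ V = 3)
    {g : V → V → ℂ} (hg : ML2 g) (hI : Inv2 L g) (h1 : ∀ x y, g y x = - g x y) (x y : V) :
    g x y = 0 := by
  let e : Basis (Fin 3) ℂ V := (Module.finBasisOfFinrankEq ℂ V hd)
  have hdiag : ∀ x, g x x = 0 := fun x => by
    have := h1 x x
    have h2 : (2 : ℂ) * g x x = 0 := by linear_combination this
    simpa using h2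
  let R : Submodule ℂ V :=
    { carrier := {x | ∀ y, g x y = 0}
      add_mem' := fun {x x'} hx hx' y => by rw [(hg.l1 y).map_add, hx y, hx' y, add_zero]
      zero_mem' := fun y => (hg.l1 y).map_zero
      smul_mem' := fun c x hx y => by rw [(hg.l1 y).map_smul, hx y, smul_zero] }
  rcases irr_cases (L := L) R (fun a x hx y => by
    have h2 := hI a x y
    rw [hx, add_zero] at h2
    exact h2) with h | h
  · -- a nonzero element of the radical
    set p := g (e 0) (e 1) with hp
    set q := g (e 0) (e 2) with hq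
    set r := g (e 1) (e 2) with hr
    have hw : r • e 0 + (-q) • e 1 + p • e 2 ∈ R := by
      intro y
      refine lin_ext e (hg.l2 _) (fun i => ?_) y
      rw [(hg.l1 _).map_add, (hg.l1 _).map_add, (hg.l1 _).map_smul, (hg.l1 _).map_smul,
        (hg.l1 _).map_smul]
      simp only [smul_eq_mul]
      have e10 : g (e 1) (e 0) = - p := h1 _ _
      have e20 : g (e 2) (e 0) = - q := h1 _ _
      have e21 : g (e 2) (e 1) = - r := h1 _ _
      fin_cases i
      · show r * g (e 0) (e 0) + -q * g (e 1) (e 0) + p * g (e 2) (e 0) = 0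
        rw [hdiag, e10, e20]; ring
      · show r * g (e 0) (e 1) + -q * g (e 1) (e 1) + p * g (e 2) (e 1) = 0
        rw [hdiag, ← hp, e21]; ring
      · show r * g (e 0) (e 2) + -q * g (e 1) (e 2) + p * g (e 2) (e 2) = 0
        rw [hdiag, ← hq, ← hr]; ring
    rw [h, Submodule.mem_bot] at hw
    have hli := e.linearIndependent
    rw [Fintype.linearIndependent_iff] at hli
    have h3 := hli ![r, -q, p] (by
      simp only [Fin.sum_univ_three, Matrix.cons_val_zero, Matrix.cons_val_one]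
      exact hw)
    have hr0 : r = 0 := h3 0
    have hq0 : q = 0 := by
      have : -q = 0 := h3 1
      simpa using this
    have hp0 : p = 0 := h3 2
    refine lin_ext e (hg.l1 y) (fun i => lin_ext e (hg.l2 _) (fun j => ?_) y) x
    have e10 : g (e 1) (e 0) = 0 := by rw [h1, ← hp, hp0, neg_zero]
    have e20 : g (e 2) (e 0) = 0 := by rw [h1, ← hq, hq0, neg_zero]
    have e21 : g (e 2) (e 1) = 0 := by rw [h1, ← hr, hr0, neg_zero]
    fin_cases i <;> fin_cases j <;>
      first | exact hdiag _ | exact e10 | exact e20 | exact e21 | exact hp0 | exact hq0 |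
        exact hr0
  · have hx : x ∈ R := by rw [h]; trivial
    exact hx y

/-- **type (3,1)** : no invariants -/
theorem PairInv.inv31 [LieModule.IsIrreducible ℂ L V] (hd : finrank ℂ V = 3)
    (htr : ∀ a : L, LinearMap.trace ℂ V (toEnd ℂ L V a) = 0)
    {G : V → V → V → V1 → ℂ} (hG : ML4 G) (hI : Inv4 L G)
    (h1 : ∀ w, Skew3 (fun x y z => G x y z w)) (x y z : V) (w : V1) : G x y z w = 0 := by
  let e : Basis (Fin 3) ℂ V := (Module.finBasisOfFinrankEq ℂ V hd)
  obtain ⟨f, hf⟩ := hb.exists_dual e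
  have D := det3_ml (ML2.of b)
  have hval : det3 (fun x z => b x z) (e 0) (e 1) (e 2) (f 0) (f 1) (f 2) = 1 := by
    simp [det3, hf]
  have A1 : ML3 (fun x y z => det3 (fun x z => b x z) x y z (f 0) (f 1) (f 2)) :=
    ⟨fun y z => D.l1 _ _ _ _ _, fun x z => D.l2 _ _ _ _ _, fun x y => D.l3 _ _ _ _ _⟩
  have key : ∀ x y z w, G x y z w = det3 (fun x z => b x z) x y z (f 0) (f 1) (f 2) *
      G (e 0) (e 1) (e 2) w := fun x y z w =>
    skew3_prop (G := fun x y z => G x y z w)
      ⟨fun y z => hG.l1 _ _ _, fun x z => hG.l2 _ _ _, fun x y => hG.l3 _ _ _⟩ (h1 w) A1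
      (det3_skew1 _ _ _ _) e hval x y z
  have hℓ : ∀ w, G (e 0) (e 1) (e 2) w = 0 := by
    refine hb.no_inv_functional (by omega) (hG.l4 _ _ _) fun a w => ?_
    have h2 := hI a (e 0) (e 1) (e 2) w
    have h3 := htr a
    rw [hb.trace_eq e f hf, Fin.sum_univ_three] at h3
    rw [key ⁅a, e 0⁆, key (e 0) ⁅a, e 1⁆, key (e 0) (e 1) ⁅a, e 2⁆] at h2
    have hf' : b (e 0) (f 0) = 1 ∧ b (e 0) (f 1) = 0 ∧ b (e 0) (f 2) = 0 ∧
        b (e 1) (f 0) = 0 ∧ b (e 1) (f 1) = 1 ∧ b (e 1) (f 2) = 0 ∧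
        b (e 2) (f 0) = 0 ∧ b (e 2) (f 1) = 0 ∧ b (e 2) (f 2) = 1 := by
      simp [hf]
    obtain ⟨f00, f01, f02, f10, f11, f12, f20, f21, f22⟩ := hf'
    simp only [det3, f00, f01, f02, f10, f11, f12, f20, f21, f22] at h2
    linear_combination h2 - G (e 0) (e 1) (e 2) w * h3
  rw [key, hℓ, mul_zero]

/-- **type (0,2)** -/
theorem PairInv.inv02 [LieModule.IsIrreducible ℂ L V] (hd : finrank ℂ V = 3)
    {g : V1 → V1 → ℂ} (hg : ML2 g) (hI : Inv2 L g) (h1 : ∀ x y, g y x = - g x y) (x y : V1) :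
    g x y = 0 :=
  haveI := hb.irr
  inv20 (L := L) (by rw [← hb.finrank_eq, hd]) hg hI h1 x y

/-- **type (1,3)** : no invariants -/
theorem PairInv.inv13 [LieModule.IsIrreducible ℂ L V] (hd : finrank ℂ V = 3)
    (htr : ∀ a : L, LinearMap.trace ℂ V (toEnd ℂ L V a) = 0)
    {G : V → V1 → V1 → V1 → ℂ} (hG : ML4 G) (hI : Inv4 L G)
    (h1 : ∀ w, Skew3 (fun x y z => G w x y z)) (w : V) (x y z : V1) : G w x y z = 0 :=
  haveI := hb.irr
  hb.flip.inv31 (by rw [← hb.finrank_eq, hd]) (fun a => by rw [hb.trace_dual, htr, neg_zero])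
    (G := fun x y z w => G w x y z)
    ⟨fun y z w => hG.l2 _ _ _, fun x z w => hG.l3 _ _ _, fun x y w => hG.l4 _ _ _,
      fun x y z => hG.l1 _ _ _⟩
    (fun a x y z w => by linear_combination hI a w x y z) h1 x y z w

end three

end Pool.Agent.Helper7
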